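import Mathlib

/-!
# The maximal height of divisors of `X ^ (2 q ^ b) - 1` is `2`

For an odd prime `q` and `b ≥ 1` the largest height of a divisor of `X ^ (2 q ^ b) - 1` in
`ℤ[X]` is exactly `2`.
-/

open Polynomial

namespace Pool.Agent.Results.MP_0523aa_nt.HeightTwo

/-- The height of an integer polynomial: the largest absolute value of a coefficient. -/
def height (f : ℤ[X]) : ℕ := f.support.sup (fun k => (f.coeff k).natAbs)

lemma height_le_iff (f : ℤ[X]) (c : ℕ) : height f ≤ c ↔ ∀ k, |f.coeff k| ≤ c := by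
  unfold height
  rw [Finset.sup_le_iff]
  constructor
  · intro h k
    by_cases hk : f.coeff k = 0
    · rw [hk]; simp
    · have := h k (mem_support_iff.mpr hk)
      rw [Int.abs_eq_natAbs]
      exact_mod_cast this
  · intro h k _
    have := h k
    rw [Int.abs_eq_natAbs] at this
    exact_mod_cast this

/-- Every divisor of `X ^ n - 1` in `ℤ[X]` is, up to sign, a product of distinct `Φ_d`. -/
lemma divisor_form {n : ℕ} (hn : 0 < n) {f : ℤ[X]} (hf : f ∣ X ^ n - 1) :
    ∃ S : Finset ℕ, ∃ u : ℤ, |u| = 1 ∧ S ⊆ n.divisors ∧ f = C u * ∏ d ∈ S, cyclotomic d ℤ := by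
  classical
  obtain ⟨g, hg⟩ := hf
  rw [← prod_cyclotomic_eq_X_pow_sub_one hn ℤ] at hg
  have hp : ∀ i ∈ n.divisors, Prime (cyclotomic i ℤ) := by
    intro i hi
    exact (cyclotomic.irreducible (Nat.pos_of_mem_divisors hi)).prime
  obtain ⟨t, u, b, c, htu, _, hbc, hx, _⟩ :=
    mul_eq_mul_prime_prod hp (x := f) (y := g) (a := 1) (by rw [one_mul]; exact hg.symm)
  have hb : IsUnit b := IsUnit.of_mul_eq_one c hbc.symm
  obtain ⟨r, hr, hrb⟩ := Polynomial.isUnit_iff.mp hb
  refine ⟨t, r, Int.isUnit_iff_abs_eq.mp hr, ?_, ?_⟩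
  · rw [← htu]; exact Finset.subset_union_left
  · rw [hx, hrb]

/-- Multiplying `F(X ^ q)` by a polynomial with at most one nonzero coefficient, which is `±1`,
in each residue class mod `q`, does not increase the bound on the coefficients. -/
lemma coeff_mul_expand_le {q : ℕ} (hq : 0 < q) (G F : ℤ[X]) (c : ℤ)
    (hF : ∀ k, |F.coeff k| ≤ c)
    (hG : ∀ n, ∑ i ∈ (Finset.range (n + 1)).filter (fun i => i % q = n % q), |G.coeff i| ≤ 1) :
    ∀ n, |(G * expand ℤ q F).coeff n| ≤ c := by
  intro n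
  have hc : 0 ≤ c := (abs_nonneg _).trans (hF 0)
  rw [coeff_mul, Finset.Nat.sum_antidiagonal_eq_sum_range_succ
    (fun i j => G.coeff i * (expand ℤ q F).coeff j)]
  calc |∑ i ∈ Finset.range (n + 1), G.coeff i * (expand ℤ q F).coeff (n - i)|
      ≤ ∑ i ∈ Finset.range (n + 1), |G.coeff i * (expand ℤ q F).coeff (n - i)| :=
        Finset.abs_sum_le_sum_abs _ _
    _ ≤ ∑ i ∈ Finset.range (n + 1), (if i % q = n % q then |G.coeff i| * c else 0) := by
        apply Finset.sum_le_sum
        intro i hi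
        rw [Finset.mem_range] at hi
        rw [abs_mul, coeff_expand hq]
        split_ifs with h1 h2 h2
        · exact mul_le_mul_of_nonneg_left (hF _) (abs_nonneg _)
        · exfalso
          apply h2
          exact (Nat.modEq_iff_dvd' (by omega)).mpr h1
        · simp only [abs_zero, mul_zero]
          positivity
        · simp
    _ = (∑ i ∈ (Finset.range (n + 1)).filter (fun i => i % q = n % q), |G.coeff i|) * c := by
        rw [Finset.sum_filter, Finset.sum_mul]
        apply Finset.sum_congr rfl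
        intro i _
        split_ifs <;> simp
    _ ≤ 1 * c := mul_le_mul_of_nonneg_right (hG n) hc
    _ = c := one_mul c

/-- A convenient criterion for the residue-class condition. -/
lemma residue_condition {q : ℕ} (G : ℤ[X]) (h1 : ∀ i, |G.coeff i| ≤ 1)
    (h2 : ∀ i j, G.coeff i ≠ 0 → G.coeff j ≠ 0 → i % q = j % q → i = j) :
    ∀ n, ∑ i ∈ (Finset.range (n + 1)).filter (fun i => i % q = n % q), |G.coeff i| ≤ 1 := by
  intro n
  by_cases h : ∃ i ∈ (Finset.range (n + 1)).filter (fun i => i % q = n % q), G.coeff i ≠ 0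
  · obtain ⟨i, hi, hi0⟩ := h
    rw [Finset.sum_eq_single_of_mem i hi]
    · exact h1 i
    · intro j hj hji
      by_contra hne
      apply hji
      rw [Finset.mem_filter] at hi hj
      have hj0 : G.coeff j ≠ 0 := by
        intro h0; apply hne; rw [h0]; simp
      exact h2 j i hj0 hi0 (hj.2.trans hi.2.symm)
  · push Not at h
    rw [Finset.sum_eq_zero]
    · norm_num
    · intro i hi
      rw [h i hi]; simp

lemma cyc_q {q : ℕ} (hq : q.Prime) : cyclotomic q ℤ = ∑ i ∈ Finset.range q, X ^ i := by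
  have : Fact q.Prime := ⟨hq⟩
  exact cyclotomic_prime ℤ q

lemma cyc_prod {q : ℕ} (hq : q.Prime) (h2 : q ≠ 2) :
    cyclotomic q ℤ * cyclotomic (2 * q) ℤ = ∑ i ∈ Finset.range q, X ^ (2 * i) := by
  have h := cyclotomic_expand_eq_cyclotomic_mul Nat.prime_two (n := q)
    (by rw [Nat.prime_dvd_prime_iff_eq Nat.prime_two hq]; exact fun h => h2 h.symm) ℤ
  rw [mul_comm, mul_comm 2 q, ← h, cyc_q hq, map_sum]
  apply Finset.sum_congr rfl
  intro i _
  rw [map_pow, expand_X, pow_mul]

lemma cyc_two_q {q : ℕ} (hq : q.Prime) (h2 : q ≠ 2) :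
    cyclotomic (2 * q) ℤ = ∑ i ∈ Finset.range q, (C ((-1) ^ i)) * X ^ i := by
  have hodd : Odd q := hq.odd_of_ne_two h2
  have hne : cyclotomic q ℤ ≠ 0 := cyclotomic_ne_zero q ℤ
  have hX2 : (X ^ 2 - 1 : ℤ[X]) ≠ 0 := X_pow_sub_C_ne_zero (by norm_num) 1
  apply mul_left_cancel₀ hne
  apply mul_left_cancel₀ hX2
  rw [cyc_prod hq h2, cyc_q hq]
  have e1 : (X ^ 2 - 1 : ℤ[X]) * ∑ i ∈ Finset.range q, X ^ (2 * i) = X ^ (2 * q) - 1 := by
    have := geom_sum_mul (X ^ 2 : ℤ[X]) q
    rw [← pow_mul] at this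
    rw [← this, mul_comm]
    congr 1
    apply Finset.sum_congr rfl
    intro i _
    rw [pow_mul]
  have e2 : (X - 1 : ℤ[X]) * ∑ i ∈ Finset.range q, X ^ i = X ^ q - 1 := by
    rw [mul_comm]; exact geom_sum_mul X q
  have e3 : (X + 1 : ℤ[X]) * ∑ i ∈ Finset.range q, (C ((-1) ^ i)) * X ^ i = X ^ q + 1 := by
    have := geom_sum_mul (-X : ℤ[X]) q
    rw [hodd.neg_pow (X : ℤ[X])] at this
    have e : ∑ i ∈ Finset.range q, (C ((-1) ^ i)) * X ^ i
        = ∑ i ∈ Finset.range q, (-X : ℤ[X]) ^ i := by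
      apply Finset.sum_congr rfl
      intro i _
      rw [neg_pow (X : ℤ[X]) i, C_pow, C_neg, C_1]
    rw [e]
    linear_combination -this
  rw [e1]
  calc (X ^ (2 * q) - 1 : ℤ[X]) = (X ^ q - 1) * (X ^ q + 1) := by ring
    _ = _ := by rw [← e2, ← e3]; ring

lemma coeff_cyc_q {q : ℕ} (hq : q.Prime) (k : ℕ) :
    (cyclotomic q ℤ).coeff k = if k < q then 1 else 0 := by
  rw [cyc_q hq, finsetSum_coeff]
  simp only [coeff_X_pow]
  rw [Finset.sum_ite_eq (Finset.range q) k (fun _ => (1 : ℤ))]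
  simp

lemma coeff_cyc_two_q {q : ℕ} (hq : q.Prime) (h2 : q ≠ 2) (k : ℕ) :
    (cyclotomic (2 * q) ℤ).coeff k = if k < q then (-1) ^ k else 0 := by
  rw [cyc_two_q hq h2, finsetSum_coeff]
  simp only [coeff_C_mul, coeff_X_pow, mul_ite, mul_one, mul_zero]
  rw [Finset.sum_ite_eq (Finset.range q) k (fun i => ((-1 : ℤ)) ^ i)]
  simp

lemma coeff_cyc_prod {q : ℕ} (hq : q.Prime) (h2 : q ≠ 2) (k : ℕ) :
    (cyclotomic q ℤ * cyclotomic (2 * q) ℤ).coeff k
      = if k % 2 = 0 ∧ k / 2 < q then 1 else 0 := by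
  rw [cyc_prod hq h2, finsetSum_coeff]
  simp only [coeff_X_pow]
  by_cases hk : k % 2 = 0
  · have : ∀ i ∈ Finset.range q, (if k = 2 * i then (1 : ℤ) else 0)
        = if k / 2 = i then 1 else 0 := by
      intro i _
      congr 1
      apply propext
      constructor <;> intro h <;> omega
    rw [Finset.sum_congr rfl this, Finset.sum_ite_eq (Finset.range q) (k / 2) (fun _ => (1 : ℤ))]
    simp [hk]
  · rw [if_neg (by tauto)]
    apply Finset.sum_eq_zero
    intro i _
    rw [if_neg (by omega)]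

/-- The four level factors satisfy the residue-class condition. -/
lemma level_condition {q : ℕ} (hq : q.Prime) (h2 : q ≠ 2) (a c : Prop) [Decidable a]
    [Decidable c] :
    ∀ n, ∑ i ∈ (Finset.range (n + 1)).filter (fun i => i % q = n % q),
      |((if a then cyclotomic q ℤ else 1) * (if c then cyclotomic (2 * q) ℤ else 1)).coeff i|
        ≤ 1 := by
  have hqpos := hq.pos
  have hodd : q % 2 = 1 := Nat.odd_iff.mp (hq.odd_of_ne_two h2)
  apply residue_condition
  · intro i
    split_ifs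
    · rw [coeff_cyc_prod hq h2]; split_ifs <;> simp
    · rw [mul_one, coeff_cyc_q hq]; split_ifs <;> simp
    · rw [one_mul, coeff_cyc_two_q hq h2]; split_ifs <;> simp [abs_pow]
    · rw [one_mul, coeff_one]; split_ifs <;> simp
  · intro i j hi hj hij
    split_ifs at hi hj
    · rw [coeff_cyc_prod hq h2] at hi hj
      simp only [ne_eq, ite_eq_right_iff, one_ne_zero, imp_false, not_not] at hi hj
      -- i, j even and < 2 q, congruent mod q
      have hi' := Nat.div_add_mod i q
      have hj' := Nat.div_add_mod j q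
      have hiq : i / q < 2 := (Nat.div_lt_iff_lt_mul hqpos).mpr (by omega)
      have hjq : j / q < 2 := (Nat.div_lt_iff_lt_mul hqpos).mpr (by omega)
      rcases Nat.lt_or_ge (i / q) 1 with h1 | h1 <;> rcases Nat.lt_or_ge (j / q) 1 with h3 | h3
      · have e1 : i / q = 0 := Nat.lt_one_iff.mp h1
        have e2 : j / q = 0 := Nat.lt_one_iff.mp h3
        rw [e1] at hi'; rw [e2] at hj'; omega
      · have e1 : i / q = 0 := Nat.lt_one_iff.mp h1
        have e2 : j / q = 1 := le_antisymm (Nat.lt_succ_iff.mp hjq) h3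
        rw [e1] at hi'; rw [e2] at hj'; omega
      · have e1 : i / q = 1 := le_antisymm (Nat.lt_succ_iff.mp hiq) h1
        have e2 : j / q = 0 := Nat.lt_one_iff.mp h3
        rw [e1] at hi'; rw [e2] at hj'; omega
      · have e1 : i / q = 1 := le_antisymm (Nat.lt_succ_iff.mp hiq) h1
        have e2 : j / q = 1 := le_antisymm (Nat.lt_succ_iff.mp hjq) h3
        rw [e1] at hi'; rw [e2] at hj'; omega
    · rw [mul_one, coeff_cyc_q hq] at hi hj
      simp only [ne_eq, ite_eq_right_iff, one_ne_zero, imp_false, not_not] at hi hj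
      rwa [Nat.mod_eq_of_lt hi, Nat.mod_eq_of_lt hj] at hij
    · rw [one_mul, coeff_cyc_two_q hq h2] at hi hj
      have hi1 : i < q := by by_contra h; exact hi (if_neg h)
      have hj1 : j < q := by by_contra h; exact hj (if_neg h)
      rwa [Nat.mod_eq_of_lt hi1, Nat.mod_eq_of_lt hj1] at hij
    · rw [one_mul, coeff_one] at hi hj
      have hi1 : i = 0 := by by_contra h; exact hi (if_neg h)
      have hj1 : j = 0 := by by_contra h; exact hj (if_neg h)
      rw [hi1, hj1]

/-- Products of `Φ_{q^(i+1)}` and `Φ_{2 q^(i+1)}`, at most one of each, have all coefficients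
in `{-1, 0, 1}`. -/
lemma flat {q : ℕ} (hq : q.Prime) (h2 : q ≠ 2) (b : ℕ) :
    ∀ (a c : ℕ → Prop) [DecidablePred a] [DecidablePred c], ∀ k,
      |(∏ i ∈ Finset.range b, ((if a i then cyclotomic (q ^ (i + 1)) ℤ else 1) *
        (if c i then cyclotomic (2 * q ^ (i + 1)) ℤ else 1))).coeff k| ≤ 1 := by
  induction b with
  | zero =>
    intro a c _ _ k
    rw [Finset.prod_range_zero, coeff_one]
    split_ifs <;> simp
  | succ b ih =>
    intro a c _ _ k
    rw [Finset.prod_range_succ', mul_comm]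
    have hexp : ∏ i ∈ Finset.range b,
        ((if a (i + 1) then cyclotomic (q ^ (i + 1 + 1)) ℤ else 1) *
          (if c (i + 1) then cyclotomic (2 * q ^ (i + 1 + 1)) ℤ else 1))
        = expand ℤ q (∏ i ∈ Finset.range b,
          ((if a (i + 1) then cyclotomic (q ^ (i + 1)) ℤ else 1) *
            (if c (i + 1) then cyclotomic (2 * q ^ (i + 1)) ℤ else 1))) := by
      rw [map_prod]
      apply Finset.prod_congr rfl
      intro i _
      rw [map_mul]
      have e1 : expand ℤ q (cyclotomic (q ^ (i + 1)) ℤ) = cyclotomic (q ^ (i + 1 + 1)) ℤ := by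
        rw [cyclotomic_expand_eq_cyclotomic hq (dvd_pow_self q (Nat.succ_ne_zero i)),
          ← pow_succ]
      have e2 : expand ℤ q (cyclotomic (2 * q ^ (i + 1)) ℤ)
          = cyclotomic (2 * q ^ (i + 1 + 1)) ℤ := by
        rw [cyclotomic_expand_eq_cyclotomic hq
          (Dvd.dvd.mul_left (dvd_pow_self q (Nat.succ_ne_zero i)) 2), mul_assoc, ← pow_succ]
      congr 1
      · split_ifs
        · exact e1.symm
        · exact (map_one _).symm
      · split_ifs
        · exact e2.symm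
        · exact (map_one _).symm
    rw [hexp]
    simp only [zero_add, pow_one]
    exact coeff_mul_expand_le hq.pos _ _ 1 (ih (fun i => a (i + 1)) (fun i => c (i + 1)))
      (level_condition hq h2 (a 0) (c 0)) k

lemma prod_subset_form {q b : ℕ} (hq : q.Prime) (h2 : q ≠ 2) (S : Finset ℕ)
    (hS : S ⊆ (2 * q ^ b).divisors) :
    ∏ d ∈ S, cyclotomic d ℤ
      = ((if 1 ∈ S then cyclotomic 1 ℤ else 1) * (if 2 ∈ S then cyclotomic 2 ℤ else 1)) *
        ∏ i ∈ Finset.range b, ((if q ^ (i + 1) ∈ S then cyclotomic (q ^ (i + 1)) ℤ else 1) *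
          (if 2 * q ^ (i + 1) ∈ S then cyclotomic (2 * q ^ (i + 1)) ℤ else 1)) := by
  have hcop : Nat.Coprime 2 (q ^ b) :=
    Nat.Coprime.pow_right b ((Nat.coprime_primes Nat.prime_two hq).mpr (fun h => h2 h.symm))
  have h1 : ∏ d ∈ S, cyclotomic d ℤ
      = ∏ d ∈ (2 * q ^ b).divisors, (if d ∈ S then cyclotomic d ℤ else 1) := by
    rw [Finset.prod_ite_mem, Finset.inter_eq_right.mpr hS]
  rw [h1, Nat.divisors_mul, Finset.mul_def, Finset.prod_image hcop.mul_injOn_divisors,
    Finset.prod_product, Nat.prime_two.prod_divisors, Nat.prod_divisors_prime_pow hq,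
    Nat.prod_divisors_prime_pow hq, ← Finset.prod_mul_distrib, Finset.prod_range_succ']
  simp only [one_mul, pow_zero, mul_one]
  rw [mul_comm]
  congr 1
  · rw [mul_comm]
  · apply Finset.prod_congr rfl
    intro i _
    rw [mul_comm]

lemma abs_coeff_le_two {q b : ℕ} (hq : q.Prime) (h2 : q ≠ 2) {f : ℤ[X]}
    (hf : f ∣ X ^ (2 * q ^ b) - 1) (k : ℕ) : |f.coeff k| ≤ 2 := by
  have hn : 0 < 2 * q ^ b := by have := hq.pos; positivity
  obtain ⟨S, u, hu, hS, rfl⟩ := divisor_form hn hf
  rw [coeff_C_mul, abs_mul, hu, one_mul, prod_subset_form hq h2 S hS]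
  have hF := flat hq h2 b (fun i => q ^ (i + 1) ∈ S) (fun i => 2 * q ^ (i + 1) ∈ S)
  set F : ℤ[X] := ∏ i ∈ Finset.range b,
    ((if q ^ (i + 1) ∈ S then cyclotomic (q ^ (i + 1)) ℤ else 1) *
      (if 2 * q ^ (i + 1) ∈ S then cyclotomic (2 * q ^ (i + 1)) ℤ else 1)) with hFdef
  have hXF : ∀ (j k : ℕ), |(X ^ j * F).coeff k| ≤ 1 := by
    intro j k
    rw [coeff_X_pow_mul']
    split_ifs
    · exact hF _
    · simp
  split_ifs
  · rw [cyclotomic_one, cyclotomic_two]
    have : ((X - 1) * (X + 1) * F : ℤ[X]) = X ^ 2 * F - F := by ring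
    rw [this, coeff_sub]
    have h1 := hXF 2 k
    have h3 := hF k
    rw [abs_le] at *
    constructor <;> linarith [h1.1, h1.2, h3.1, h3.2]
  · rw [cyclotomic_one]
    have : ((X - 1) * 1 * F : ℤ[X]) = X ^ 1 * F - F := by ring
    rw [this, coeff_sub]
    have h1 := hXF 1 k
    have h3 := hF k
    rw [abs_le] at *
    constructor <;> linarith [h1.1, h1.2, h3.1, h3.2]
  · rw [cyclotomic_two]
    have : (1 * (X + 1) * F : ℤ[X]) = X ^ 1 * F + F := by ring
    rw [this, coeff_add]
    have h1 := hXF 1 k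
    have h3 := hF k
    rw [abs_le] at *
    constructor <;> linarith [h1.1, h1.2, h3.1, h3.2]
  · rw [one_mul, one_mul]
    linarith [hF k]

/-- For every odd prime `q` and every `b ≥ 1`, the largest height of a divisor of
`X ^ (2 q ^ b) - 1` in `ℤ[X]` is `2`. -/
theorem result (q b : ℕ) (hq : q.Prime) (h2 : q ≠ 2) (hb : 1 ≤ b) :
    IsGreatest {h : ℕ | ∃ f : ℤ[X], f ∣ X ^ (2 * q ^ b) - 1 ∧ height f = h} 2 := by
  have hub : ∀ f : ℤ[X], f ∣ X ^ (2 * q ^ b) - 1 → height f ≤ 2 := by
    intro f hf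
    rw [height_le_iff]
    exact fun k => abs_coeff_le_two hq h2 hf k
  constructor
  · -- the divisor `(X + 1) * (1 + X + ... + X ^ (q ^ b - 1))`
    set N := q ^ b with hN
    have hN3 : 3 ≤ N := by
      have hq3 : 3 ≤ q := by
        have := hq.two_le
        omega
      calc 3 ≤ q := hq3
        _ = q ^ 1 := (pow_one q).symm
        _ ≤ q ^ b := Nat.pow_le_pow_right hq.pos hb
    have hNodd : Odd N := (hq.odd_of_ne_two h2).pow
    set w : ℤ[X] := (X + 1) * ∑ i ∈ Finset.range N, X ^ i with hw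
    have hdvd : w ∣ X ^ (2 * N) - 1 := by
      have h1 : (X + 1 : ℤ[X]) ∣ X ^ N + 1 := by
        have := Odd.add_dvd_pow_add_pow (X : ℤ[X]) 1 hNodd
        rwa [one_pow] at this
      obtain ⟨g, hg⟩ := h1
      refine ⟨(X - 1) * g, ?_⟩
      have h3 : (X - 1 : ℤ[X]) * ∑ i ∈ Finset.range N, X ^ i = X ^ N - 1 := by
        rw [mul_comm]; exact geom_sum_mul X N
      calc (X ^ (2 * N) - 1 : ℤ[X]) = (X ^ N - 1) * (X ^ N + 1) := by ring
        _ = _ := by rw [← h3, hg, hw]; ring
    refine ⟨w, hdvd, le_antisymm (hub w hdvd) ?_⟩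
    have hc : w.coeff 1 = 2 := by
      have hs : ∀ k, k < N → (∑ i ∈ Finset.range N, X ^ i : ℤ[X]).coeff k = 1 := by
        intro k hk
        rw [finsetSum_coeff]
        simp only [coeff_X_pow]
        rw [Finset.sum_ite_eq (Finset.range N) k (fun _ => (1 : ℤ)),
          if_pos (Finset.mem_range.mpr hk)]
      have : w = X ^ 1 * (∑ i ∈ Finset.range N, X ^ i) + ∑ i ∈ Finset.range N, X ^ i := by
        rw [hw]; ring
      rw [this, coeff_add, coeff_X_pow_mul', if_pos le_rfl, hs 0 (by omega), hs 1 (by omega)]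
      norm_num
    by_contra hlt
    push Not at hlt
    have h1 : height w ≤ 1 := by omega
    rw [height_le_iff] at h1
    have := h1 1
    rw [hc] at this
    norm_num at this
  · rintro h ⟨f, hf, rfl⟩
    exact hub f hf

end Pool.Agent.Results.MP_0523aa_nt.HeightTwo
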